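import Pool.Agent.Helper30.AC.Stmts

/-! Sheet AC, row LIM: the sequences of `CC K` converge in `K`. -/

set_option autoImplicit false

namespace Pool.Agent.Helper44.AC

open Filter Topology Pool.Agent.Helper30.AC

universe u

theorem st_LIM : ST_LIM.{u} := by
  intro E _ _ _ K hK q hq
  obtain ⟨hc, hconv, h0, -⟩ := hK
  have hin : ∀ n, q.2 n ∈ K := by
    intro n
    obtain ⟨h1, h2, k, hk, e⟩ := (hq n).1
    simp only at h1 h2 e
    rw [e]
    have h := hconv hk h0 h1 (sub_nonneg.2 h2) (by ring)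
    simpa using h
  refine ⟨hin, ?_⟩
  obtain ⟨M, hM⟩ := hc.isBounded.exists_norm_le
  have hd : ∀ n, dist (q.2 n) (q.2 n.succ) ≤ (q.1 n - q.1 (n + 1)) * M := by
    intro n
    obtain ⟨h1, h2, k, hk, e⟩ := (hq n).2
    simp only at h1 h2 e
    rw [dist_eq_norm]
    show ‖q.2 n - q.2 (n + 1)‖ ≤ _
    rw [e, norm_smul, Real.norm_of_nonneg h1]
    exact mul_le_mul_of_nonneg_left (hM k hk) h1
  have hM0 : 0 ≤ M := (norm_nonneg _).trans (hM 0 h0)
  have hs : Summable fun n => (q.1 n - q.1 (n + 1)) * M := by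
    refine summable_of_sum_range_le (c := M) (fun n => mul_nonneg (hq n).2.1 hM0) fun N => ?_
    rw [← Finset.sum_mul, Finset.sum_range_sub']
    have h1 : q.1 0 ≤ 1 := (hq 0).1.2.1
    have h2 : 0 ≤ q.1 N := (hq N).1.1
    calc (q.1 0 - q.1 N) * M ≤ 1 * M := mul_le_mul_of_nonneg_right (by linarith) hM0
      _ = M := one_mul M
  obtain ⟨l, hl⟩ := cauchySeq_tendsto_of_complete (cauchySeq_of_dist_le_of_summable _ hd hs)
  exact ⟨l, hc.isClosed.mem_of_tendsto hl (Eventually.of_forall hin), hl⟩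

end Pool.Agent.Helper44.AC
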